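import Pool.Agent.K3h91.CV.Upd

/-!
# Critical values of a bond in a finite set of sites with a boundary condition
-/

set_option autoImplicit false

open Set

namespace Pool.Agent.K3h91.CV

variable {V E : Type} {a b : E → V}

/-- spin configurations -/
def Spin (σ : V → ℝ) : Prop := ∀ x, σ x = 1 ∨ σ x = -1

/-- the spin configurations with the values of `η` outside `B` -/
def Cl (B : Finset V) (η : V → ℝ) : Set (V → ℝ) := {ρ | Spin ρ ∧ ∀ v, v ∉ B → ρ v = η v}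

lemma Cl.self {B : Finset V} {η : V → ℝ} (h : Spin η) : η ∈ Cl B η := ⟨h, fun _ _ => rfl⟩

lemma Cl_finite (B : Finset V) (η : V → ℝ) : (Cl B η).Finite := by
  classical
  have h1 : (Set.pi (univ : Set B) fun _ => ({1, -1} : Set ℝ)).Finite :=
    Set.Finite.pi fun _ => by simp
  refine Set.Finite.of_finite_image (f := fun (ρ : V → ℝ) (v : B) => ρ v) (h1.subset ?_) ?_
  · rintro _ ⟨ρ, hρ, rfl⟩
    intro v _
    rcases hρ.1 v with h | h <;> simp [h]
  · intro ρ hρ ρ' hρ' h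
    funext v
    by_cases hv : v ∈ B
    · exact congrFun h ⟨v, hv⟩
    · rw [hρ.2 v hv, hρ'.2 v hv]

section energy

variable (hf : ∀ x, {e | a e = x ∨ b e = x}.Finite)

open Classical in
/-- the bonds with an end in `B` -/
noncomputable def tb (B : Finset V) : Finset E := B.biUnion fun x => (hf x).toFinset

lemma mem_tb {B : Finset V} {e : E} : e ∈ tb hf B ↔ a e ∈ B ∨ b e ∈ B := by
  classical
  unfold tb
  simp only [Finset.mem_biUnion, Set.Finite.mem_toFinset, Set.mem_ofPred_eq]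
  constructor
  · rintro ⟨x, hx, h | h⟩
    · left; rw [h]; exact hx
    · right; rw [h]; exact hx
  · rintro (h | h)
    · exact ⟨_, h, Or.inl rfl⟩
    · exact ⟨_, h, Or.inr rfl⟩

/-- the energy of the bonds with an end in `B` -/
noncomputable def En (J : E → ℝ) (B : Finset V) (ρ : V → ℝ) : ℝ :=
  -∑ e ∈ tb hf B, J e * (ρ (a e) * ρ (b e))

/-- the energies with the bond product `s` at `e0` -/
def Es (J : E → ℝ) (B : Finset V) (e0 : E) (s : ℝ) (η : V → ℝ) : Set ℝ :=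
  {x | ∃ ρ ∈ Cl B η, ρ (a e0) * ρ (b e0) = s ∧ x = En hf J B ρ}

/-- the least energy with the bond product `s` at `e0` -/
noncomputable def ME (J : E → ℝ) (B : Finset V) (e0 : E) (s : ℝ) (η : V → ℝ) : ℝ :=
  sInf (Es hf J B e0 s η)

variable {hf}

lemma Es_finite (J : E → ℝ) (B : Finset V) (e0 : E) (s : ℝ) (η : V → ℝ) :
    (Es hf J B e0 s η).Finite := by
  refine ((Cl_finite B η).image (En hf J B)).subset ?_
  rintro x ⟨ρ, hρ, -, rfl⟩
  exact ⟨ρ, hρ, rfl⟩

lemma exists_par {B : Finset V} {e0 : E} (hl : a e0 ≠ b e0) (h0 : a e0 ∈ B) {η : V → ℝ}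
    (hη : Spin η) {s : ℝ} (hs : s = 1 ∨ s = -1) : ∃ ρ ∈ Cl B η, ρ (a e0) * ρ (b e0) = s := by
  classical
  refine ⟨fun x => if x = a e0 then s * η (b e0) else η x, ⟨fun x => ?_, fun v hv => ?_⟩, ?_⟩
  · simp only
    split_ifs
    · rcases hs with h | h <;> rcases hη (b e0) with h' | h' <;> rw [h, h'] <;> norm_num
    · exact hη x
  · have : v ≠ a e0 := fun h => hv (by rw [h]; exact h0)
    simp only [this, if_false]
  · simp only [if_true, hl.symm, if_false]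
    rcases hη (b e0) with h' | h' <;> rw [h'] <;> ring

lemma ME_le {J : E → ℝ} {B : Finset V} {e0 : E} {s : ℝ} {η ρ : V → ℝ} (hρ : ρ ∈ Cl B η)
    (hs : ρ (a e0) * ρ (b e0) = s) : ME hf J B e0 s η ≤ En hf J B ρ :=
  csInf_le (Es_finite J B e0 s η).bddBelow ⟨ρ, hρ, hs, rfl⟩

lemma ME_att {J : E → ℝ} {B : Finset V} {e0 : E} (hl : a e0 ≠ b e0) (h0 : a e0 ∈ B) {η : V → ℝ}
    (hη : Spin η) {s : ℝ} (hs : s = 1 ∨ s = -1) :
    ∃ ρ ∈ Cl B η, ρ (a e0) * ρ (b e0) = s ∧ ME hf J B e0 s η = En hf J B ρ := by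
  obtain ⟨ρ, hρ, hs'⟩ := exists_par hl h0 hη hs
  exact Set.Nonempty.csInf_mem (s := Es hf J B e0 s η) ⟨_, ρ, hρ, hs', rfl⟩ (Es_finite J B e0 s η)

lemma par_pm {ρ : V → ℝ} (h : Spin ρ) (e : E) :
    ρ (a e) * ρ (b e) = 1 ∨ ρ (a e) * ρ (b e) = -1 := by
  rcases h (a e) with h1 | h1 <;> rcases h (b e) with h2 | h2 <;> rw [h1, h2] <;> norm_num

variable [DecidableEq E]

lemma En_upd {J : E → ℝ} {B : Finset V} {e0 : E} (h0 : e0 ∈ tb hf B) (x : ℝ) (ρ : V → ℝ) :
    En hf (Function.update J e0 x) B ρ =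
      En hf J B ρ + (J e0 - x) * (ρ (a e0) * ρ (b e0)) := by
  unfold En
  rw [← Finset.add_sum_erase _ _ h0, ← Finset.add_sum_erase _ _ h0, Function.update_self]
  have : ∑ e ∈ (tb hf B).erase e0, Function.update J e0 x e * (ρ (a e) * ρ (b e)) =
      ∑ e ∈ (tb hf B).erase e0, J e * (ρ (a e) * ρ (b e)) := by
    refine Finset.sum_congr rfl fun e he => ?_
    rw [Function.update_of_ne (Finset.ne_of_mem_erase he)]
  rw [this]
  ring

lemma ME_upd {J : E → ℝ} {B : Finset V} {e0 : E} (hl : a e0 ≠ b e0) (h0 : a e0 ∈ B) (x : ℝ)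
    {η : V → ℝ} (hη : Spin η) {s : ℝ} (hs : s = 1 ∨ s = -1) :
    ME hf (Function.update J e0 x) B e0 s η = ME hf J B e0 s η + (J e0 - x) * s := by
  have h1 : e0 ∈ tb hf B := (mem_tb hf).2 (Or.inl h0)
  apply le_antisymm
  · obtain ⟨ρ, hρ, hp, he⟩ := ME_att (hf := hf) (J := J) hl h0 hη hs
    rw [he]
    refine (ME_le hρ hp).trans (le_of_eq ?_)
    rw [En_upd h1, hp]
  · obtain ⟨ρ, hρ, hp, he⟩ := ME_att (hf := hf) (J := Function.update J e0 x) hl h0 hη hs
    rw [he, En_upd h1, hp]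
    have := ME_le (hf := hf) (J := J) hρ hp
    linarith

variable (hf)

/-- the critical value of the coupling of `e0` for the boundary condition `η` outside `B` -/
noncomputable def cv (J : E → ℝ) (B : Finset V) (e0 : E) (η : V → ℝ) : ℝ :=
  (ME hf (Function.update J e0 0) B e0 1 η - ME hf (Function.update J e0 0) B e0 (-1) η) / 2

/-- all critical values -/
def cs (J : E → ℝ) (B : Finset V) (e0 : E) : Set ℝ := {x | ∃ η, Spin η ∧ x = cv hf J B e0 η}

/-- the least critical value -/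
noncomputable def lo (J : E → ℝ) (B : Finset V) (e0 : E) : ℝ := sInf (cs hf J B e0)

/-- the greatest critical value -/
noncomputable def hi (J : E → ℝ) (B : Finset V) (e0 : E) : ℝ := sSup (cs hf J B e0)

variable {hf}

lemma ME_diff {J : E → ℝ} {B : Finset V} {e0 : E} (hl : a e0 ≠ b e0) (h0 : a e0 ∈ B)
    {η : V → ℝ} (hη : Spin η) :
    ME hf J B e0 (-1) η - ME hf J B e0 1 η = 2 * (J e0 - cv hf J B e0 η) := by
  have h1 := ME_upd (hf := hf) (J := J) hl h0 0 hη (s := 1) (Or.inl rfl)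
  have h2 := ME_upd (hf := hf) (J := J) hl h0 0 hη (s := -1) (Or.inr rfl)
  unfold cv
  rw [h1, h2]
  ring

lemma cv_inv (J : E → ℝ) (B : Finset V) (e0 : E) (η : V → ℝ) (x : ℝ) :
    cv hf (Function.update J e0 x) B e0 η = cv hf J B e0 η := by
  unfold cv
  rw [Function.update_idem]

lemma cs_inv (J : E → ℝ) (B : Finset V) (e0 : E) (x : ℝ) :
    cs hf (Function.update J e0 x) B e0 = cs hf J B e0 := by
  unfold cs
  simp only [cv_inv]

lemma lo_inv (J : E → ℝ) (B : Finset V) (e0 : E) (x : ℝ) :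
    lo hf (Function.update J e0 x) B e0 = lo hf J B e0 := by
  unfold lo; rw [cs_inv]

lemma hi_inv (J : E → ℝ) (B : Finset V) (e0 : E) (x : ℝ) :
    hi hf (Function.update J e0 x) B e0 = hi hf J B e0 := by
  unfold hi; rw [cs_inv]

/-! ### Finitely many boundary conditions -/

open Classical in
/-- the ends of the bonds with an end in `B` -/
noncomputable def wB (hf : ∀ x, {e | a e = x ∨ b e = x}.Finite) (B : Finset V) : Finset V :=
  (tb hf B).image a ∪ (tb hf B).image b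

open Classical in
/-- the configuration with the value `-1` in `S` -/
noncomputable def cfg (S : Finset V) : V → ℝ := fun x => if x ∈ S then -1 else 1

lemma cfg_spin (S : Finset V) : Spin (cfg S) := by
  intro x
  unfold cfg
  split_ifs <;> simp

lemma ME_congr {J : E → ℝ} {B : Finset V} {e0 : E} (hl : a e0 ≠ b e0) (h0 : a e0 ∈ B)
    {η η' : V → ℝ} (hη : Spin η) (hη' : Spin η') (h : ∀ x ∈ wB hf B, η x = η' x) {s : ℝ}
    (hs : s = 1 ∨ s = -1) : ME hf J B e0 s η ≤ ME hf J B e0 s η' := by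
  classical
  obtain ⟨ρ, hρ, hp, he⟩ := ME_att (hf := hf) (J := J) hl h0 hη' hs
  have ha : ∀ e ∈ tb hf B, (if a e ∈ B then ρ (a e) else η (a e)) = ρ (a e) := by
    intro e he
    split_ifs with h1
    · rfl
    · rw [hρ.2 _ h1]
      exact h _ (Finset.mem_union_left _ (Finset.mem_image_of_mem _ he))
  have hb : ∀ e ∈ tb hf B, (if b e ∈ B then ρ (b e) else η (b e)) = ρ (b e) := by
    intro e he
    split_ifs with h1
    · rfl
    · rw [hρ.2 _ h1]
      exact h _ (Finset.mem_union_right _ (Finset.mem_image_of_mem _ he))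
  have he0 : e0 ∈ tb hf B := (mem_tb hf).2 (Or.inl h0)
  rw [he]
  refine (ME_le (ρ := fun x => if x ∈ B then ρ x else η x) ⟨fun x => ?_, fun v hv => ?_⟩
    ?_).trans (le_of_eq ?_)
  · simp only
    split_ifs
    · exact hρ.1 x
    · exact hη x
  · show (if v ∈ B then ρ v else η v) = η v
    rw [if_neg hv]
  · show (if a e0 ∈ B then ρ (a e0) else η (a e0)) * (if b e0 ∈ B then ρ (b e0) else η (b e0)) = s
    rw [ha e0 he0, hb e0 he0]
    exact hp
  · unfold En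
    congr 1
    refine Finset.sum_congr rfl fun e he => ?_
    show J e * ((if a e ∈ B then ρ (a e) else η (a e)) *
      (if b e ∈ B then ρ (b e) else η (b e))) = _
    rw [ha e he, hb e he]

lemma cv_congr {J : E → ℝ} {B : Finset V} {e0 : E} (hl : a e0 ≠ b e0) (h0 : a e0 ∈ B)
    {η η' : V → ℝ} (hη : Spin η) (hη' : Spin η') (h : ∀ x ∈ wB hf B, η x = η' x) :
    cv hf J B e0 η = cv hf J B e0 η' := by
  unfold cv
  rw [le_antisymm (ME_congr hl h0 hη hη' h (Or.inl rfl))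
      (ME_congr hl h0 hη' hη (fun x hx => (h x hx).symm) (Or.inl rfl)),
    le_antisymm (ME_congr hl h0 hη hη' h (Or.inr rfl))
      (ME_congr hl h0 hη' hη (fun x hx => (h x hx).symm) (Or.inr rfl))]

lemma cs_eq {J : E → ℝ} {B : Finset V} {e0 : E} (hl : a e0 ≠ b e0) (h0 : a e0 ∈ B) :
    cs hf J B e0 = (fun S => cv hf J B e0 (cfg S)) '' {S | S ∈ (wB hf B).powerset} := by
  classical
  ext x
  constructor
  · rintro ⟨η, hη, rfl⟩
    refine ⟨(wB hf B).filter (fun x => η x = -1), ?_, ?_⟩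
    · exact Finset.mem_powerset.2 (Finset.filter_subset _ _)
    · refine cv_congr hl h0 (cfg_spin _) hη fun x hx => ?_
      unfold cfg
      rcases hη x with h | h
      · have h1 : x ∉ (wB hf B).filter (fun x => η x = -1) := by
          rw [Finset.mem_filter, h]
          norm_num
        rw [if_neg h1, h]
      · have h1 : x ∈ (wB hf B).filter (fun x => η x = -1) := by
          rw [Finset.mem_filter]
          exact ⟨hx, h⟩
        rw [if_pos h1, h]
  · rintro ⟨S, -, rfl⟩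
    exact ⟨cfg S, cfg_spin S, rfl⟩

lemma cs_finite {J : E → ℝ} {B : Finset V} {e0 : E} (hl : a e0 ≠ b e0) (h0 : a e0 ∈ B) :
    (cs hf J B e0).Finite := by
  rw [cs_eq hl h0]
  exact (Finset.finite_toSet _).image _

lemma cs_nonempty (J : E → ℝ) (B : Finset V) (e0 : E) : (cs hf J B e0).Nonempty :=
  ⟨_, cfg ∅, cfg_spin _, rfl⟩

lemma lo_le {J : E → ℝ} {B : Finset V} {e0 : E} (hl : a e0 ≠ b e0) (h0 : a e0 ∈ B)
    {η : V → ℝ} (hη : Spin η) : lo hf J B e0 ≤ cv hf J B e0 η :=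
  csInf_le (cs_finite hl h0).bddBelow ⟨η, hη, rfl⟩

lemma le_hi {J : E → ℝ} {B : Finset V} {e0 : E} (hl : a e0 ≠ b e0) (h0 : a e0 ∈ B)
    {η : V → ℝ} (hη : Spin η) : cv hf J B e0 η ≤ hi hf J B e0 :=
  le_csSup (cs_finite hl h0).bddAbove ⟨η, hη, rfl⟩

lemma lo_att {J : E → ℝ} {B : Finset V} {e0 : E} (hl : a e0 ≠ b e0) (h0 : a e0 ∈ B) :
    ∃ η, Spin η ∧ lo hf J B e0 = cv hf J B e0 η :=
  (cs_nonempty J B e0).csInf_mem (cs_finite hl h0)

lemma hi_att {J : E → ℝ} {B : Finset V} {e0 : E} (hl : a e0 ≠ b e0) (h0 : a e0 ∈ B) :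
    ∃ η, Spin η ∧ hi hf J B e0 = cv hf J B e0 η :=
  (cs_nonempty J B e0).csSup_mem (cs_finite hl h0)

/-! ### Ground states in `B` -/

/-- `σ` is a ground state in `B` (for its own boundary condition) -/
def Gs (hf : ∀ x, {e | a e = x ∨ b e = x}.Finite) (J : E → ℝ) (B : Finset V) (σ : V → ℝ) : Prop :=
  Spin σ ∧ ∀ ρ ∈ Cl B σ, En hf J B σ ≤ En hf J B ρ

lemma En_sub {J : E → ℝ} {B B' : Finset V} (hB : B ⊆ B') {σ ρ : V → ℝ} (hρ : ρ ∈ Cl B σ) :
    En hf J B' ρ - En hf J B' σ = En hf J B ρ - En hf J B σ := by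
  have hsub : tb hf B ⊆ tb hf B' := by
    intro e he
    rw [mem_tb] at he ⊢
    rcases he with h | h
    · exact Or.inl (hB h)
    · exact Or.inr (hB h)
  unfold En
  rw [← Finset.sum_sdiff hsub (f := fun e => J e * (ρ (a e) * ρ (b e))),
    ← Finset.sum_sdiff hsub (f := fun e => J e * (σ (a e) * σ (b e)))]
  have : ∑ e ∈ tb hf B' \ tb hf B, J e * (ρ (a e) * ρ (b e)) =
      ∑ e ∈ tb hf B' \ tb hf B, J e * (σ (a e) * σ (b e)) := by
    refine Finset.sum_congr rfl fun e he => ?_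
    rw [Finset.mem_sdiff, mem_tb, mem_tb] at he
    have h2 := he.2
    push Not at h2
    rw [hρ.2 _ h2.1, hρ.2 _ h2.2]
  rw [this]
  ring

lemma Gs.mono {J : E → ℝ} {B B' : Finset V} (hB : B ⊆ B') {σ : V → ℝ} (h : Gs hf J B' σ) :
    Gs hf J B σ := by
  refine ⟨h.1, fun ρ hρ => ?_⟩
  have h1 : ρ ∈ Cl B' σ := ⟨hρ.1, fun v hv => hρ.2 v (fun h2 => hv (hB h2))⟩
  have h2 := h.2 ρ h1
  have h3 := En_sub (hf := hf) (J := J) hB hρ
  linarith

/-- a ground state in `B` with bond product `1` at `e0`: the coupling is at least the critical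
value -/
lemma Gs.pos {J : E → ℝ} {B : Finset V} {e0 : E} (hl : a e0 ≠ b e0) (h0 : a e0 ∈ B) {σ : V → ℝ}
    (h : Gs hf J B σ) (hp : σ (a e0) * σ (b e0) = 1) : cv hf J B e0 σ ≤ J e0 := by
  have h1 := ME_diff (hf := hf) (J := J) hl h0 h.1
  have h2 : ME hf J B e0 1 σ ≤ En hf J B σ := ME_le (Cl.self h.1) hp
  obtain ⟨ρ, hρ, -, he⟩ := ME_att (hf := hf) (J := J) hl h0 h.1 (s := -1) (Or.inr rfl)
  have h3 := h.2 ρ hρ
  linarith

lemma Gs.neg' {J : E → ℝ} {B : Finset V} {e0 : E} (hl : a e0 ≠ b e0) (h0 : a e0 ∈ B) {σ : V → ℝ}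
    (h : Gs hf J B σ) (hp : σ (a e0) * σ (b e0) = -1) : J e0 ≤ cv hf J B e0 σ := by
  have h1 := ME_diff (hf := hf) (J := J) hl h0 h.1
  have h2 : ME hf J B e0 (-1) σ ≤ En hf J B σ := ME_le (Cl.self h.1) hp
  obtain ⟨ρ, hρ, -, he⟩ := ME_att (hf := hf) (J := J) hl h0 h.1 (s := 1) (Or.inl rfl)
  have h3 := h.2 ρ hρ
  linarith

lemma exists_pos {J : E → ℝ} {B : Finset V} {e0 : E} (hl : a e0 ≠ b e0) (h0 : a e0 ∈ B)
    {η : V → ℝ} (hη : Spin η) (h : cv hf J B e0 η < J e0) :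
    ∃ σ ∈ Cl B η, Gs hf J B σ ∧ σ (a e0) * σ (b e0) = 1 := by
  have h1 := ME_diff (hf := hf) (J := J) hl h0 hη
  obtain ⟨σ, hσ, hp, he⟩ := ME_att (hf := hf) (J := J) hl h0 hη (s := 1) (Or.inl rfl)
  refine ⟨σ, hσ, ⟨hσ.1, fun ρ hρ => ?_⟩, hp⟩
  have hρ' : ρ ∈ Cl B η := ⟨hρ.1, fun v hv => by rw [hρ.2 v hv, hσ.2 v hv]⟩
  rcases par_pm (a := a) (b := b) hρ.1 e0 with h2 | h2
  · have := ME_le (hf := hf) (J := J) hρ' h2
    linarith
  · have := ME_le (hf := hf) (J := J) hρ' h2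
    linarith

lemma exists_neg {J : E → ℝ} {B : Finset V} {e0 : E} (hl : a e0 ≠ b e0) (h0 : a e0 ∈ B)
    {η : V → ℝ} (hη : Spin η) (h : J e0 < cv hf J B e0 η) :
    ∃ σ ∈ Cl B η, Gs hf J B σ ∧ σ (a e0) * σ (b e0) = -1 := by
  have h1 := ME_diff (hf := hf) (J := J) hl h0 hη
  obtain ⟨σ, hσ, hp, he⟩ := ME_att (hf := hf) (J := J) hl h0 hη (s := -1) (Or.inr rfl)
  refine ⟨σ, hσ, ⟨hσ.1, fun ρ hρ => ?_⟩, hp⟩
  have hρ' : ρ ∈ Cl B η := ⟨hρ.1, fun v hv => by rw [hρ.2 v hv, hσ.2 v hv]⟩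
  rcases par_pm (a := a) (b := b) hρ.1 e0 with h2 | h2
  · have := ME_le (hf := hf) (J := J) hρ' h2
    linarith
  · have := ME_le (hf := hf) (J := J) hρ' h2
    linarith

/-- The intervals of the critical values decrease. -/
theorem lo_mono {J : E → ℝ} {B B' : Finset V} {e0 : E} (hl : a e0 ≠ b e0) (h0 : a e0 ∈ B)
    (hB : B ⊆ B') : lo hf J B e0 ≤ lo hf J B' e0 := by
  obtain ⟨η, hη, he⟩ := lo_att (hf := hf) (J := J) hl (hB h0)
  rw [he]
  by_contra hcon
  push Not at hcon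
  obtain ⟨x, hx1, hx2⟩ := exists_between hcon
  rw [← cv_inv J B' e0 η x] at hx1
  obtain ⟨σ, -, hσ, hp⟩ := exists_pos (hf := hf) (J := Function.update J e0 x) hl (hB h0) hη
    (by rw [Function.update_self]; exact hx1)
  have h1 := (hσ.mono hB).pos hl h0 hp
  rw [Function.update_self, cv_inv] at h1
  have h2 := lo_le (hf := hf) (J := J) hl h0 hσ.1
  linarith

theorem hi_mono {J : E → ℝ} {B B' : Finset V} {e0 : E} (hl : a e0 ≠ b e0) (h0 : a e0 ∈ B)
    (hB : B ⊆ B') : hi hf J B' e0 ≤ hi hf J B e0 := by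
  obtain ⟨η, hη, he⟩ := hi_att (hf := hf) (J := J) hl (hB h0)
  rw [he]
  by_contra hcon
  push Not at hcon
  obtain ⟨x, hx1, hx2⟩ := exists_between hcon
  rw [← cv_inv J B' e0 η x] at hx2
  obtain ⟨σ, -, hσ, hp⟩ := exists_neg (hf := hf) (J := Function.update J e0 x) hl (hB h0) hη
    (by rw [Function.update_self]; exact hx2)
  have h1 := (hσ.mono hB).neg' hl h0 hp
  rw [Function.update_self, cv_inv] at h1
  have h2 := le_hi (hf := hf) (J := J) hl h0 hσ.1
  linarith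

/-! ### Cheap boundaries -/

open Classical in
/-- the bonds with exactly one end in `B` -/
noncomputable def bd (hf : ∀ x, {e | a e = x ∨ b e = x}.Finite) (B : Finset V) : Finset E :=
  (tb hf B).filter fun e => ¬ (a e ∈ B ∧ b e ∈ B)

lemma ME_bd {J : E → ℝ} {B : Finset V} {e0 : E} (hl : a e0 ≠ b e0) (h0 : a e0 ∈ B)
    (h0' : b e0 ∈ B) {η η' : V → ℝ} (hη : Spin η) (hη' : Spin η') {s : ℝ}
    (hs : s = 1 ∨ s = -1) :
    ME hf J B e0 s η ≤ ME hf J B e0 s η' + 2 * ∑ e ∈ bd hf B, |J e| := by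
  classical
  obtain ⟨ρ, hρ, hp, he⟩ := ME_att (hf := hf) (J := J) hl h0 hη' hs
  rw [he]
  set ρ' : V → ℝ := fun x => if x ∈ B then ρ x else η x with hρ'
  have hS : Spin ρ' := by
    intro x
    simp only [hρ']
    split_ifs
    · exact hρ.1 x
    · exact hη x
  refine (ME_le (ρ := ρ') ⟨hS, fun v hv => by simp only [hρ', hv, if_false]⟩
    (by simp only [hρ', h0, h0', if_true]; exact hp)).trans ?_
  have key : En hf J B ρ' - En hf J B ρ ≤ 2 * ∑ e ∈ bd hf B, |J e| := by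
    unfold En bd
    rw [neg_sub_neg, ← Finset.sum_sub_distrib, Finset.sum_filter, Finset.mul_sum]
    refine Finset.sum_le_sum fun e _ => ?_
    by_cases h : a e ∈ B ∧ b e ∈ B
    · rw [if_neg (not_not.2 h)]
      simp only [hρ', h.1, h.2, if_true]
      simp
    · rw [if_pos h]
      have h1 : -1 ≤ ρ' (a e) * ρ' (b e) ∧ ρ' (a e) * ρ' (b e) ≤ 1 := by
        rcases par_pm (a := a) (b := b) hS e with h3 | h3 <;> rw [h3] <;> norm_num
      have h2 : -1 ≤ ρ (a e) * ρ (b e) ∧ ρ (a e) * ρ (b e) ≤ 1 := by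
        rcases par_pm (a := a) (b := b) hρ.1 e with h3 | h3 <;> rw [h3] <;> norm_num
      rcases abs_cases (J e) with h3 | h3 <;> rw [h3.1] <;> nlinarith
  linarith

theorem hi_sub_lo {J : E → ℝ} {B : Finset V} {e0 : E} (hl : a e0 ≠ b e0) (h0 : a e0 ∈ B)
    (h0' : b e0 ∈ B) : hi hf J B e0 - lo hf J B e0 ≤ 2 * ∑ e ∈ bd hf B, |J e| := by
  classical
  obtain ⟨η, hη, he⟩ := hi_att (hf := hf) (J := J) hl h0
  obtain ⟨η', hη', he'⟩ := lo_att (hf := hf) (J := J) hl h0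
  rw [he, he']
  have h1 := ME_bd (hf := hf) (J := Function.update J e0 0) hl h0 h0' hη hη' (s := 1) (Or.inl rfl)
  have h2 := ME_bd (hf := hf) (J := Function.update J e0 0) hl h0 h0' hη' hη (s := -1)
    (Or.inr rfl)
  have h3 : ∑ e ∈ bd hf B, |Function.update J e0 0 e| ≤ ∑ e ∈ bd hf B, |J e| := by
    refine Finset.sum_le_sum fun e _ => ?_
    by_cases h : e = e0
    · subst h
      rw [Function.update_self, abs_zero]
      exact abs_nonneg _
    · rw [Function.update_of_ne h]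
  unfold cv
  linarith

end energy

end Pool.Agent.K3h91.CV
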