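import Pool.Agent.K3h91.CV.Thin

/-!
# Cheap boundaries for independent couplings
-/

set_option autoImplicit false

open Set Filter MeasureTheory ProbabilityTheory

namespace Pool.Agent.K3h91.CV

variable {V E : Type} {a b : E → V}

section indep

variable (μ : E → Measure ℝ) [∀ e, IsProbabilityMeasure (μ e)]

/-- all couplings in the finite set `T` are in `W` -/
def Win (T : Finset E) (W : Set ℝ) : Set (E → ℝ) := Set.pi (T : Set E) fun _ => W

lemma Win_meas (T : Finset E) {W : Set ℝ} (hW : MeasurableSet W) : MeasurableSet (Win T W) :=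
  MeasurableSet.pi (Finset.countable_toSet _) fun _ _ => hW

lemma Win_prob (T : Finset E) {W : Set ℝ} (hW : MeasurableSet W) :
    Measure.infinitePi μ (Win T W) = ∏ e ∈ T, μ e W :=
  Measure.infinitePi_pi _ (fun _ _ => hW)

/-- Events for pairwise disjoint finite sets of couplings are independent. -/
lemma Win_indep (T : ℕ → Finset E) (W : ℕ → Set ℝ) (hW : ∀ n, MeasurableSet (W n))
    (hT : ∀ m n, m ≠ n → Disjoint (T m) (T n)) :
    iIndepSet (fun n => Win (T n) (W n)) (Measure.infinitePi μ) := by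
  classical
  rw [iIndepSet_iff_meas_biInter (fun i => Win_meas _ (hW i))]
  intro S
  set W' : E → Set ℝ := fun e => if h : ∃ i, e ∈ T i then W h.choose else Set.univ with hW'
  have hWm : ∀ e, MeasurableSet (W' e) := by
    intro e
    simp only [hW']
    split_ifs
    · exact hW _
    · exact MeasurableSet.univ
  have hWe : ∀ i e, e ∈ T i → W' e = W i := by
    intro i e he
    have hex : ∃ i, e ∈ T i := ⟨i, he⟩
    have hch : hex.choose = i := by
      by_contra hne
      exact Finset.disjoint_left.1 (hT _ _ hne) hex.choose_spec he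
    simp only [hW']
    rw [dif_pos hex, hch]
  have hset : ∀ i, Win (T i) (W i) = Set.pi (T i : Set E) W' := by
    intro i
    unfold Win
    ext J
    simp only [Set.mem_pi, Finset.mem_coe]
    refine forall₂_congr fun e he => ?_
    rw [hWe i e he]
  have hinter : (⋂ i ∈ S, Win (T i) (W i)) =
      Set.pi ((S.biUnion fun i => T i : Finset _) : Set E) W' := by
    ext J
    simp only [Set.mem_iInter, hset, Set.mem_pi, Finset.coe_biUnion, Set.mem_iUnion,
      Finset.mem_coe]
    constructor
    · rintro h e ⟨i, hi, he⟩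
      exact h i hi e he
    · intro h i hi e he
      exact h e ⟨i, hi, he⟩
  rw [hinter, Measure.infinitePi_pi _ (fun e _ => hWm e), Finset.prod_biUnion]
  · refine Finset.prod_congr rfl fun i _ => ?_
    rw [hset, Measure.infinitePi_pi _ (fun e _ => hWm e)]
  · intro i _ j _ hij
    exact hT i j hij

lemma frequently_win (T : ℕ → Finset E) (W : ℕ → Set ℝ) (hW : ∀ n, MeasurableSet (W n))
    (hT : ∀ m n, m ≠ n → Disjoint (T m) (T n))
    (hs : ¬ Summable fun n => ∏ e ∈ T n, (μ e).real (W n)) :
    ∀ᵐ J ∂(Measure.infinitePi μ), ∃ᶠ n in atTop, J ∈ Win (T n) (W n) := by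
  have h1 := measure_limsup_eq_one (μ := Measure.infinitePi μ) (fun n => Win_meas (T n) (hW n))
    (Win_indep μ T W hW hT) (by
      by_contra hcon
      apply hs
      have h2 := ENNReal.summable_toReal hcon
      refine h2.congr fun n => ?_
      rw [Win_prob μ _ (hW n), ENNReal.toReal_prod]
      rfl)
  have h2 : MeasurableSet (limsup (fun n => Win (T n) (W n)) atTop) :=
    MeasurableSet.measurableSet_limsup fun n => Win_meas (T n) (hW n)
  rw [← prob_compl_eq_zero_iff h2] at h1
  rw [ae_iff]
  refine measure_mono_null (fun J hJ => ?_) h1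
  simp only [Set.mem_ofPred_eq] at hJ
  rw [Set.mem_compl_iff, mem_limsup_iff_frequently_mem]
  exact hJ

end indep

variable [Countable V] [Countable E] [Infinite V]
variable (μ : E → Measure ℝ) [∀ e, IsProbabilityMeasure (μ e)]

/-- **Uniqueness for graphs with cheap disjoint boundaries.** -/
theorem uni_of_cut (hg : Gr a b) (hat : ∀ e x, μ e {x} = 0) (B : ℕ → Finset V)
    (hex : ∀ v, ∀ᶠ n in atTop, v ∈ B n)
    (hdis : ∀ m n, m ≠ n → Disjoint (bd hg.fib (B m)) (bd hg.fib (B n)))
    (hs : ∀ ε : ℝ, 0 < ε → ¬ Summable fun n => ∏ e ∈ bd hg.fib (B n),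
      (μ e).real (Ioo (-(ε / (bd hg.fib (B n)).card)) (ε / (bd hg.fib (B n)).card))) :
    ∀ᵐ J ∂(Measure.infinitePi μ), Uni a b J := by
  refine uni_of_cheap μ hg hat ?_
  have hae : ∀ᵐ J ∂(Measure.infinitePi μ), ∀ k : ℕ, ∃ᶠ n in atTop, J ∈ Win (bd hg.fib (B n))
      (Ioo (-((1 / ((k : ℝ) + 1)) / (bd hg.fib (B n)).card))
        ((1 / ((k : ℝ) + 1)) / (bd hg.fib (B n)).card)) := by
    rw [ae_all_iff]
    intro k
    exact frequently_win μ _ _ (fun n => measurableSet_Ioo) hdis (hs _ (by positivity))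
  filter_upwards [hae] with J hJ A ε hε
  obtain ⟨k, hk⟩ := exists_nat_one_div_lt hε
  have hA : ∀ᶠ n in atTop, A ⊆ B n := by
    have : ∀ᶠ n in atTop, ∀ v ∈ A, v ∈ B n := (Filter.eventually_all_finset A).2 fun v _ => hex v
    exact this
  obtain ⟨n, hn1, hn2⟩ := ((hJ k).and_eventually hA).exists
  refine ⟨B n, hn2, lt_of_le_of_lt ?_ hk⟩
  rcases (bd hg.fib (B n)).eq_empty_or_nonempty with h0 | h0
  · rw [h0, Finset.sum_empty]
    positivity
  · have hc : (0 : ℝ) < (bd hg.fib (B n)).card := by
      exact_mod_cast Finset.card_pos.2 h0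
    calc ∑ e ∈ bd hg.fib (B n), |J e|
        ≤ ∑ e ∈ bd hg.fib (B n), (1 / ((k : ℝ) + 1)) / (bd hg.fib (B n)).card := by
          refine Finset.sum_le_sum fun e he => ?_
          have h1 := hn1 e (Finset.mem_coe.2 he)
          rw [Set.mem_Ioo] at h1
          exact (abs_lt.2 h1).le
      _ = 1 / ((k : ℝ) + 1) := by
          rw [Finset.sum_const, nsmul_eq_mul]
          field_simp

end Pool.Agent.K3h91.CV
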