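import Pool.Agent.K3h91.CV.Crit

/-!
# Ground states of a graph: compactness, and comparison of two of them
-/

set_option autoImplicit false

open Set Filter

namespace Pool.Agent.K3h91.CV

variable {V E : Type}

/-- the graph has no loops, is locally finite and connected -/
structure Gr (a b : E → V) : Prop where
  loop : ∀ e, a e ≠ b e
  fib : ∀ x, {e | a e = x ∨ b e = x}.Finite
  conn : ∀ S : Set V, S.Nonempty → (∀ e, a e ∈ S ↔ b e ∈ S) → S = univ

/-- infinite-volume ground states -/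
def IG (a b : E → V) (J : E → ℝ) (σ : V → ℝ) : Prop :=
  Spin σ ∧ ∀ ρ : V → ℝ, Spin ρ → {x | ρ x ≠ σ x}.Finite → ρ ≠ σ →
    0 < ∑ᶠ e, J e * (σ (a e) * σ (b e) - ρ (a e) * ρ (b e))

variable {a b : E → V}

/-- different finite sets of couplings have different sums -/
def Gen (J : E → ℝ) : Prop := ∀ T1 T2 : Finset E, Disjoint T1 T2 →
  (∃ e, e ∈ T1 ∨ e ∈ T2) → ∑ e ∈ T1, J e ≠ ∑ e ∈ T2, J e

lemma Spin.neg {σ : V → ℝ} (h : Spin σ) : Spin (-σ) := by
  intro x
  rcases h x with h1 | h1 <;> simp [h1]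

lemma IG.neg {J : E → ℝ} {σ : V → ℝ} (h : IG a b J σ) : IG a b J (-σ) := by
  refine ⟨h.1.neg, fun ρ hρ hfin hne => ?_⟩
  have h1 : {x | (-ρ) x ≠ σ x} = {x | ρ x ≠ (-σ) x} := by
    ext x
    simp only [Set.mem_ofPred_eq, Pi.neg_apply, ne_eq, neg_eq_iff_eq_neg]
  have h2 := h.2 (-ρ) hρ.neg (by rw [h1]; exact hfin) (fun he => hne (by rw [← he, neg_neg]))
  simpa only [Pi.neg_apply, neg_mul_neg] using h2

lemma fs_eq (hf : ∀ x, {e | a e = x ∨ b e = x}.Finite) (J : E → ℝ) {B : Finset V}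
    {σ ρ : V → ℝ} (h : ∀ v, v ∉ B → ρ v = σ v) :
    ∑ᶠ e, J e * (σ (a e) * σ (b e) - ρ (a e) * ρ (b e)) = En hf J B ρ - En hf J B σ := by
  classical
  unfold En
  rw [neg_sub_neg, ← Finset.sum_sub_distrib]
  rw [finsum_eq_sum_of_support_subset (s := tb hf B)]
  · refine Finset.sum_congr rfl fun e _ => ?_
    ring
  · intro e he
    by_contra hc
    apply he
    rw [Finset.mem_coe, mem_tb] at hc
    push Not at hc
    simp only [h _ hc.1, h _ hc.2, sub_self, mul_zero]

lemma IG.gs (hf : ∀ x, {e | a e = x ∨ b e = x}.Finite) {J : E → ℝ} {σ : V → ℝ}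
    (h : IG a b J σ) (B : Finset V) : Gs hf J B σ := by
  refine ⟨h.1, fun ρ hρ => ?_⟩
  by_cases hne : ρ = σ
  · rw [hne]
  · have hfin : {x | ρ x ≠ σ x}.Finite := by
      refine (Finset.finite_toSet B).subset fun x hx => ?_
      by_contra hc
      exact hx (hρ.2 x hc)
    have := h.2 ρ hρ.1 hfin hne
    rw [fs_eq hf J hρ.2] at this
    linarith

lemma front (hg : Gr a b) [Infinite V] (D : Finset V) (hD : D.Nonempty) :
    ∃ e, (a e ∈ D ∧ b e ∉ D) ∨ (b e ∈ D ∧ a e ∉ D) := by
  by_contra hcon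
  push Not at hcon
  have h := hg.conn (D : Set V) hD (fun e => ⟨fun h => (hcon e).1 h, fun h => (hcon e).2 h⟩)
  exact Set.infinite_univ (α := V) (by rw [← h]; exact D.finite_toSet)

lemma strict (hg : Gr a b) [Infinite V] {J : E → ℝ} (hJ : Gen J) {σ ρ : V → ℝ} (hσ : Spin σ)
    (hρ : Spin ρ) {D : Finset V} (hD : D.Nonempty) (hDm : ∀ x, x ∈ D ↔ ρ x ≠ σ x) :
    En hg.fib J D σ ≠ En hg.fib J D ρ := by
  classical
  set T := tb hg.fib D with hT
  set T1 := T.filter (fun e => σ (a e) * σ (b e) - ρ (a e) * ρ (b e) = 2) with hT1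
  set T2 := T.filter (fun e => σ (a e) * σ (b e) - ρ (a e) * ρ (b e) = -2) with hT2
  have hval : ∀ e, σ (a e) * σ (b e) - ρ (a e) * ρ (b e) = 0 ∨
      σ (a e) * σ (b e) - ρ (a e) * ρ (b e) = 2 ∨
      σ (a e) * σ (b e) - ρ (a e) * ρ (b e) = -2 := by
    intro e
    rcases par_pm (a := a) (b := b) hσ e with h1 | h1 <;>
      rcases par_pm (a := a) (b := b) hρ e with h2 | h2 <;> rw [h1, h2] <;> norm_num
  have hsum : En hg.fib J D ρ - En hg.fib J D σ = 2 * (∑ e ∈ T1, J e - ∑ e ∈ T2, J e) := by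
    unfold En
    rw [neg_sub_neg, ← Finset.sum_sub_distrib, ← hT, hT1, hT2, Finset.sum_filter,
      Finset.sum_filter, ← Finset.sum_sub_distrib, Finset.mul_sum]
    refine Finset.sum_congr rfl fun e _ => ?_
    rw [← mul_sub]
    rcases hval e with h1 | h1 | h1 <;> rw [h1] <;> norm_num
    · ring
    · ring
  have hmem : ∃ e, e ∈ T1 ∨ e ∈ T2 := by
    obtain ⟨e, he⟩ := front hg D hD
    refine ⟨e, ?_⟩
    have heT : e ∈ T := by
      rw [hT, mem_tb]
      rcases he with he | he
      · exact Or.inl he.1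
      · exact Or.inr he.1
    have hne : σ (a e) * σ (b e) - ρ (a e) * ρ (b e) ≠ 0 := by
      rcases he with ⟨h1, h2⟩ | ⟨h1, h2⟩
      · rw [hDm] at h1 h2
        rw [not_not] at h2
        rw [h2]
        intro h0
        have h3 : (σ (a e) - ρ (a e)) * σ (b e) = 0 := by linarith
        rcases mul_eq_zero.1 h3 with h4 | h4
        · exact h1 (by linarith)
        · rcases hσ (b e) with h5 | h5 <;> rw [h5] at h4 <;> norm_num at h4
      · rw [hDm] at h1 h2
        rw [not_not] at h2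
        rw [h2]
        intro h0
        have h3 : (σ (b e) - ρ (b e)) * σ (a e) = 0 := by linarith
        rcases mul_eq_zero.1 h3 with h4 | h4
        · exact h1 (by linarith)
        · rcases hσ (a e) with h5 | h5 <;> rw [h5] at h4 <;> norm_num at h4
    rw [hT1, hT2, Finset.mem_filter, Finset.mem_filter]
    rcases hval e with h3 | h3 | h3
    · exact absurd h3 hne
    · exact Or.inl ⟨heT, h3⟩
    · exact Or.inr ⟨heT, h3⟩
  have hne2 := hJ T1 T2 (by
    rw [Finset.disjoint_left]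
    intro e h1 h2
    rw [hT1, Finset.mem_filter] at h1
    rw [hT2, Finset.mem_filter] at h2
    linarith [h1.2, h2.2]) hmem
  intro h0
  apply hne2
  linarith

/-- Limits of ground states of the finite sets of sites are ground states. -/
theorem limit_gs (hg : Gr a b) [Infinite V] {J : E → ℝ} (hJ : Gen J) (c : Finset V → V → ℝ)
    (hc : ∀ Λ, Gs hg.fib J Λ (c Λ)) :
    ∃ σ, IG a b J σ ∧ ∀ e s, (∀ᶠ Λ in atTop, c Λ (a e) * c Λ (b e) = s) →
      σ (a e) * σ (b e) = s := by
  classical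
  set U : Ultrafilter (Finset V) := Ultrafilter.of Filter.atTop with hU
  set σ : V → ℝ := fun x => if ∀ᶠ Λ in (U : Filter (Finset V)), c Λ x = 1 then 1 else -1 with hσ
  have hlim : ∀ x, ∀ᶠ Λ in (U : Filter (Finset V)), c Λ x = σ x := by
    intro x
    by_cases h : ∀ᶠ Λ in (U : Filter (Finset V)), c Λ x = 1
    · simp only [hσ, h, if_true]
    · simp only [hσ, h, if_false]
      rw [← Ultrafilter.eventually_not] at h
      filter_upwards [h] with Λ hΛ
      rcases (hc Λ).1 x with h1 | h1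
      · exact absurd h1 hΛ
      · exact h1
  have hSσ : Spin σ := by
    intro x
    simp only [hσ]
    split_ifs <;> simp
  refine ⟨σ, ⟨hSσ, ?_⟩, ?_⟩
  · intro ρ hρ hfin hne
    set D : Finset V := hfin.toFinset with hD
    have memD : ∀ x, x ∈ D ↔ ρ x ≠ σ x := by intro x; simp [hD]
    have hDne : D.Nonempty := by
      by_contra hcon
      rw [Finset.not_nonempty_iff_eq_empty] at hcon
      apply hne
      funext x
      by_contra hx
      have := (memD x).2 hx
      rw [hcon] at this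
      simp at this
    have hoff : ∀ x, x ∉ D → ρ x = σ x := by
      intro x hx
      by_contra hc2
      exact hx ((memD x).2 hc2)
    rw [fs_eq hg.fib J hoff]
    have hle : En hg.fib J D σ ≤ En hg.fib J D ρ := by
      have h1 : ∀ᶠ Λ in (U : Filter (Finset V)), ∀ x ∈ wB hg.fib D, c Λ x = σ x :=
        (Filter.eventually_all_finset _).2 fun x _ => hlim x
      have h2 : ∀ᶠ Λ in (U : Filter (Finset V)), D ⊆ Λ :=
        Ultrafilter.of_le (Filter.atTop : Filter (Finset V)) (Filter.eventually_ge_atTop D)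
      obtain ⟨Λ, hΛ1, hΛ2⟩ := (h1.and h2).exists
      set ρ' : V → ℝ := fun x => if x ∈ D then ρ x else c Λ x with hρ'
      have h3 : ρ' ∈ Cl D (c Λ) := by
        refine ⟨fun x => ?_, fun v hv => ?_⟩
        · simp only [hρ']
          split_ifs
          · exact hρ x
          · exact (hc Λ).1 x
        · simp only [hρ', hv, if_false]
      have h4 := ((hc Λ).mono hΛ2).2 ρ' h3
      have hw : ∀ e ∈ tb hg.fib D, a e ∈ wB hg.fib D ∧ b e ∈ wB hg.fib D := fun e he =>
        ⟨Finset.mem_union_left _ (Finset.mem_image_of_mem _ he),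
          Finset.mem_union_right _ (Finset.mem_image_of_mem _ he)⟩
      have h5 : ∀ x ∈ wB hg.fib D, ρ' x = ρ x := by
        intro x hx
        simp only [hρ']
        split_ifs with hxD
        · rfl
        · rw [hΛ1 x hx, hoff x hxD]
      have e1 : En hg.fib J D (c Λ) = En hg.fib J D σ := by
        unfold En
        congr 1
        refine Finset.sum_congr rfl fun e he => ?_
        rw [hΛ1 _ (hw e he).1, hΛ1 _ (hw e he).2]
      have e2 : En hg.fib J D ρ' = En hg.fib J D ρ := by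
        unfold En
        congr 1
        refine Finset.sum_congr rfl fun e he => ?_
        rw [h5 _ (hw e he).1, h5 _ (hw e he).2]
      rw [e1, e2] at h4
      exact h4
    have hlt := lt_of_le_of_ne hle (strict hg hJ hSσ hρ hDne memD)
    linarith
  · intro e s hs
    have h1 : ∀ᶠ Λ in (U : Filter (Finset V)), c Λ (a e) * c Λ (b e) = s :=
      Ultrafilter.of_le (Filter.atTop : Filter (Finset V)) hs
    obtain ⟨Λ, hΛ⟩ := ((hlim (a e)).and ((hlim (b e)).and h1)).exists
    rw [← hΛ.1, ← hΛ.2.1, hΛ.2.2]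

/-- every boundary condition has a ground state in `B` -/
lemma exists_Gs (hf : ∀ x, {e | a e = x ∨ b e = x}.Finite) (J : E → ℝ) (B : Finset V)
    {η : V → ℝ} (hη : Spin η) : ∃ σ ∈ Cl B η, Gs hf J B σ := by
  obtain ⟨σ, hσ, hmin⟩ := Set.exists_min_image (Cl B η) (En hf J B) (Cl_finite B η)
    ⟨η, Cl.self hη⟩
  refine ⟨σ, hσ, hσ.1, fun ρ hρ => hmin ρ ⟨hρ.1, fun v hv => ?_⟩⟩
  rw [hρ.2 v hv, hσ.2 v hv]

theorem exists_IG (hg : Gr a b) [Infinite V] {J : E → ℝ} (hJ : Gen J) : ∃ σ, IG a b J σ := by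
  have h : ∀ Λ : Finset V, ∃ σ, Gs hg.fib J Λ σ := fun Λ => by
    obtain ⟨σ, -, h⟩ := exists_Gs hg.fib J Λ (cfg_spin ∅)
    exact ⟨σ, h⟩
  choose c hc using h
  obtain ⟨σ, hσ, -⟩ := limit_gs hg hJ c hc
  exact ⟨σ, hσ⟩

/-- two ground states with the same bond products agree up to the sign -/
lemma eq_or_neg (hg : Gr a b) [Infinite V] {σ τ : V → ℝ} (hσ : Spin σ) (hτ : Spin τ)
    (h : ∀ e, σ (a e) * σ (b e) = τ (a e) * τ (b e)) : τ = σ ∨ τ = -σ := by
  have hx : Nonempty V := inferInstance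
  obtain ⟨x0⟩ := hx
  have key : ∀ x, σ x * τ x = σ x0 * τ x0 := by
    have h1 := hg.conn {x | σ x * τ x = σ x0 * τ x0} ⟨x0, rfl⟩ (by
      intro e
      have h2 := h e
      have ha := hσ (a e)
      have hb := hσ (b e)
      have ha' := hτ (a e)
      have hb' := hτ (b e)
      have h3 : σ (a e) * τ (a e) = σ (b e) * τ (b e) := by
        rcases ha with h4 | h4 <;> rcases hb with h5 | h5 <;> rcases ha' with h6 | h6 <;>
          rcases hb' with h7 | h7 <;> rw [h4, h5, h6, h7] at h2 <;> rw [h4, h5, h6, h7] <;>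
          norm_num at h2 <;> norm_num
      simp only [Set.mem_ofPred_eq, h3])
    intro x
    have : x ∈ {x | σ x * τ x = σ x0 * τ x0} := by rw [h1]; trivial
    exact this
  have hss : ∀ x, σ x * σ x = 1 := fun x => by rcases hσ x with h1 | h1 <;> rw [h1] <;> norm_num
  have ht : ∀ x, τ x = (σ x0 * τ x0) * σ x := by
    intro x
    rw [← key x]
    linear_combination (-(τ x)) * hss x
  rcases hσ x0 with h1 | h1 <;> rcases hτ x0 with h2 | h2
  · left; funext x; rw [ht x, h1, h2]; ring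
  · right; funext x; rw [Pi.neg_apply, ht x, h1, h2]; ring
  · right; funext x; rw [Pi.neg_apply, ht x, h1, h2]; ring
  · left; funext x; rw [ht x, h1, h2]; ring

end Pool.Agent.K3h91.CV
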