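import Pool.Agent.K3h91.CV.Lim

/-!
# Uniqueness of the ground states and the oscillation of the critical values
-/

set_option autoImplicit false

open Set Filter MeasureTheory

namespace Pool.Agent.K3h91.CV

variable {V E : Type} {a b : E → V}

section measurability

variable [DecidableEq E] (hf : ∀ x, {e | a e = x ∨ b e = x}.Finite)

lemma En_meas (B : Finset V) (ρ : V → ℝ) : Measurable fun J : E → ℝ => En hf J B ρ := by
  unfold En
  exact (Finset.measurable_sum _ fun e _ => (measurable_pi_apply e).mul_const _).neg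

variable {hf}

lemma ME_meas {B : Finset V} {e0 : E} (hl : a e0 ≠ b e0) (h0 : a e0 ∈ B) {η : V → ℝ}
    (hη : Spin η) {s : ℝ} (hs : s = 1 ∨ s = -1) :
    Measurable fun J : E → ℝ => ME hf J B e0 s η := by
  refine measurable_of_Iic fun t => ?_
  have h : (fun J : E → ℝ => ME hf J B e0 s η) ⁻¹' Iic t =
      ⋃ ρ ∈ {ρ | ρ ∈ Cl B η ∧ ρ (a e0) * ρ (b e0) = s}, {J : E → ℝ | En hf J B ρ ≤ t} := by
    ext J
    simp only [Set.mem_preimage, Set.mem_Iic, Set.mem_iUnion, Set.mem_ofPred_eq, exists_prop]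
    constructor
    · intro hJ
      obtain ⟨ρ, hρ, hp, he⟩ := ME_att (hf := hf) (J := J) hl h0 hη hs
      exact ⟨ρ, ⟨hρ, hp⟩, by rw [← he]; exact hJ⟩
    · rintro ⟨ρ, ⟨hρ, hp⟩, he⟩
      exact (ME_le hρ hp).trans he
  rw [h]
  refine Set.Finite.measurableSet_biUnion ((Cl_finite B η).subset fun ρ hρ => hρ.1) fun ρ _ => ?_
  exact measurableSet_le (En_meas hf B ρ) measurable_const

lemma upd_meas (e0 : E) (x : ℝ) : Measurable fun J : E → ℝ => Function.update J e0 x := by
  have h : Measurable fun J : E → ℝ => ((J, x) : (E → ℝ) × ℝ) := measurable_id.prodMk measurable_const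
  exact (meas_upd e0).comp h

lemma cv_meas {B : Finset V} {e0 : E} (hl : a e0 ≠ b e0) (h0 : a e0 ∈ B) {η : V → ℝ}
    (hη : Spin η) : Measurable fun J : E → ℝ => cv hf J B e0 η := by
  unfold cv
  exact (((ME_meas hl h0 hη (Or.inl rfl)).comp (upd_meas e0 0)).sub
    ((ME_meas hl h0 hη (Or.inr rfl)).comp (upd_meas e0 0))).div_const 2

lemma lo_meas {B : Finset V} {e0 : E} (hl : a e0 ≠ b e0) (h0 : a e0 ∈ B) :
    Measurable fun J : E → ℝ => lo hf J B e0 := by
  refine measurable_of_Iic fun t => ?_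
  have h : (fun J : E → ℝ => lo hf J B e0) ⁻¹' Iic t =
      ⋃ S ∈ (wB hf B).powerset, {J : E → ℝ | cv hf J B e0 (cfg S) ≤ t} := by
    ext J
    simp only [Set.mem_preimage, Set.mem_Iic, Set.mem_iUnion, Set.mem_ofPred_eq, exists_prop]
    constructor
    · intro hJ
      obtain ⟨η, hη, he⟩ := lo_att (hf := hf) (J := J) hl h0
      have h1 : cv hf J B e0 η ∈ cs hf J B e0 := ⟨η, hη, rfl⟩
      rw [cs_eq hl h0] at h1
      obtain ⟨S, hS, hc⟩ := h1
      refine ⟨S, hS, ?_⟩
      have hc' : cv hf J B e0 (cfg S) = cv hf J B e0 η := hc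
      rw [hc', ← he]
      exact hJ
    · rintro ⟨S, -, hS⟩
      exact (lo_le hl h0 (cfg_spin S)).trans hS
  rw [h]
  exact Finset.measurableSet_biUnion _ fun S _ =>
    measurableSet_le (cv_meas hl h0 (cfg_spin S)) measurable_const

lemma hi_meas {B : Finset V} {e0 : E} (hl : a e0 ≠ b e0) (h0 : a e0 ∈ B) :
    Measurable fun J : E → ℝ => hi hf J B e0 := by
  refine measurable_of_Ici fun t => ?_
  have h : (fun J : E → ℝ => hi hf J B e0) ⁻¹' Ici t =
      ⋃ S ∈ (wB hf B).powerset, {J : E → ℝ | t ≤ cv hf J B e0 (cfg S)} := by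
    ext J
    simp only [Set.mem_preimage, Set.mem_Ici, Set.mem_iUnion, Set.mem_ofPred_eq, exists_prop]
    constructor
    · intro hJ
      obtain ⟨η, hη, he⟩ := hi_att (hf := hf) (J := J) hl h0
      have h1 : cv hf J B e0 η ∈ cs hf J B e0 := ⟨η, hη, rfl⟩
      rw [cs_eq hl h0] at h1
      obtain ⟨S, hS, hc⟩ := h1
      refine ⟨S, hS, ?_⟩
      have hc' : cv hf J B e0 (cfg S) = cv hf J B e0 η := hc
      rw [hc', ← he]
      exact hJ
    · rintro ⟨S, -, hS⟩
      exact hS.trans (le_hi hl h0 (cfg_spin S))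
  rw [h]
  exact Finset.measurableSet_biUnion _ fun S _ =>
    measurableSet_le measurable_const (cv_meas hl h0 (cfg_spin S))

end measurability

open Classical in
/-- the critical values of all bonds have small oscillation in large sets -/
def Van (hf : ∀ x, {e | a e = x ∨ b e = x}.Finite) (J : E → ℝ) : Prop :=
  ∀ e0 : E, ∀ ε : ℝ, 0 < ε → ∃ B : Finset V, a e0 ∈ B ∧ hi hf J B e0 - lo hf J B e0 ≤ ε

lemma lo_le_hi [DecidableEq E] {hf : ∀ x, {e | a e = x ∨ b e = x}.Finite} {J : E → ℝ}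
    {B : Finset V} {e0 : E} (hl : a e0 ≠ b e0) (h0 : a e0 ∈ B) : lo hf J B e0 ≤ hi hf J B e0 :=
  (lo_le hl h0 (cfg_spin ∅)).trans (le_hi hl h0 (cfg_spin ∅))

/-- there is exactly one pair of ground states -/
def Uni (a b : E → V) (J : E → ℝ) : Prop := ∃ σ, {ρ | IG a b J ρ} = {σ, -σ}

lemma uni_of (hg : Gr a b) [Infinite V] {J : E → ℝ} (hJ : Gen J)
    (h : ∀ σ τ, IG a b J σ → IG a b J τ → ∀ e, σ (a e) * σ (b e) = 1 → τ (a e) * τ (b e) = -1 →
      False) : Uni a b J := by
  obtain ⟨σ, hσ⟩ := exists_IG hg hJ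
  refine ⟨σ, ?_⟩
  ext τ
  simp only [Set.mem_ofPred_eq, Set.mem_insert_iff, Set.mem_singleton_iff]
  constructor
  · intro hτ
    refine eq_or_neg hg hσ.1 hτ.1 fun e => ?_
    rcases par_pm (a := a) (b := b) hσ.1 e with h1 | h1 <;>
      rcases par_pm (a := a) (b := b) hτ.1 e with h2 | h2
    · rw [h1, h2]
    · exact absurd (h σ τ hσ hτ e h1 h2) (by simp)
    · exact absurd (h τ σ hτ hσ e h2 h1) (by simp)
    · rw [h1, h2]
  · rintro (rfl | rfl)
    · exact hσ
    · exact hσ.neg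

lemma Uni.par {J : E → ℝ} (h : Uni a b J) {σ τ : V → ℝ} (hσ : IG a b J σ) (hτ : IG a b J τ)
    (e : E) : σ (a e) * σ (b e) = τ (a e) * τ (b e) := by
  obtain ⟨ρ, hρ⟩ := h
  have h1 : σ ∈ ({ρ, -ρ} : Set (V → ℝ)) := by rw [← hρ]; exact hσ
  have h2 : τ ∈ ({ρ, -ρ} : Set (V → ℝ)) := by rw [← hρ]; exact hτ
  rcases h1 with h1 | h1 <;> rcases h2 with h2 | h2 <;> rw [h1, h2] <;> simp

variable [Countable V] [Countable E] [Infinite V]
variable (μ : E → Measure ℝ) [∀ e, IsProbabilityMeasure (μ e)]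

/-- **Uniqueness from vanishing oscillation.** -/
theorem uni_of_van (hg : Gr a b) (hat : ∀ e x, μ e {x} = 0)
    (h : ∀ᵐ J ∂(Measure.infinitePi μ), Van hg.fib J) :
    ∀ᵐ J ∂(Measure.infinitePi μ), Uni a b J := by
  classical
  set N : E → Set (E → ℝ) := fun e0 =>
    (⋂ B : {B : Finset V // a e0 ∈ B}, {J | lo hg.fib J B e0 ≤ J e0} ∩
      {J | J e0 ≤ hi hg.fib J B e0}) ∩
    ⋂ n : ℕ, ⋃ B : {B : Finset V // a e0 ∈ B},
      {J | hi hg.fib J B e0 - lo hg.fib J B e0 ≤ 1 / ((n : ℝ) + 1)} with hN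
  have hNm : ∀ e0, MeasurableSet (N e0) := by
    intro e0
    refine (MeasurableSet.iInter fun B => ?_).inter
      (MeasurableSet.iInter fun n => MeasurableSet.iUnion fun B => ?_)
    · exact (measurableSet_le (lo_meas (hg.loop e0) B.2) (measurable_pi_apply e0)).inter
        (measurableSet_le (measurable_pi_apply e0) (hi_meas (hg.loop e0) B.2))
    · exact measurableSet_le ((hi_meas (hg.loop e0) B.2).sub (lo_meas (hg.loop e0) B.2))
        measurable_const
  have hN0 : ∀ e0, Measure.infinitePi μ (N e0) = 0 := by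
    intro e0
    refine null_of_lines μ e0 (hNm e0) fun J => ?_
    have hs : {x | Function.update J e0 x ∈ N e0}.Subsingleton := by
      intro x hx y hy
      simp only [hN, Set.mem_ofPred_eq, Set.mem_inter_iff, Set.mem_iInter, Set.mem_iUnion,
        lo_inv, hi_inv, Function.update_self] at hx hy
      by_contra hne
      have hpos : 0 < |x - y| := abs_pos.2 (sub_ne_zero.2 hne)
      obtain ⟨n, hn⟩ := exists_nat_one_div_lt hpos
      obtain ⟨B, hB⟩ := hx.2 n
      have h1 := hx.1 B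
      have h2 := hy.1 B
      have h3 : |x - y| ≤ 1 / ((n : ℝ) + 1) := by
        rw [abs_le]
        constructor <;> linarith [h1.1, h1.2, h2.1, h2.2]
      linarith
    rcases hs.eq_empty_or_singleton with h0 | ⟨x, h0⟩
    · rw [h0, measure_empty]
    · rw [h0]; exact hat e0 x
  have hae : ∀ᵐ J ∂(Measure.infinitePi μ), ∀ e0, J ∉ N e0 := by
    rw [ae_all_iff]
    intro e0
    rw [ae_iff]
    simp only [not_not]
    exact hN0 e0
  filter_upwards [h, hae, gen_ae' μ hat] with J hJ hJN hJg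
  refine uni_of hg hJg fun σ τ hσ hτ e0 h1 h2 => hJN e0 ?_
  simp only [hN, Set.mem_inter_iff, Set.mem_iInter, Set.mem_iUnion, Set.mem_ofPred_eq]
  constructor
  · rintro ⟨B, hB⟩
    have hl := hg.loop e0
    exact ⟨(lo_le hl hB hσ.1).trans ((hσ.gs hg.fib B).pos hl hB h1),
      ((hτ.gs hg.fib B).neg' hl hB h2).trans (le_hi hl hB hτ.1)⟩
  · intro n
    obtain ⟨B, hB, hB2⟩ := hJ e0 (1 / ((n : ℝ) + 1)) (by positivity)
    refine ⟨⟨B, hB⟩, ?_⟩
    convert hB2

/-- **Vanishing oscillation from uniqueness.** -/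
theorem van_of_uni (hg : Gr a b) (hat : ∀ e x, μ e {x} = 0)
    (hfull : ∀ e (p q : ℝ), p < q → μ e (Ioo p q) ≠ 0)
    (h : ∀ᵐ J ∂(Measure.infinitePi μ), Uni a b J) :
    ∀ᵐ J ∂(Measure.infinitePi μ), Van hg.fib J := by
  classical
  set D : E → ℚ → ℚ → Set (E → ℝ) := fun e0 p q =>
    ⋂ B : {B : Finset V // a e0 ∈ B}, {J | lo hg.fib J B e0 ≤ p} ∩ {J | (q : ℝ) ≤ hi hg.fib J B e0}
    with hD
  have hDm : ∀ e0 p q, MeasurableSet (D e0 p q) := by
    intro e0 p q
    refine MeasurableSet.iInter fun B => ?_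
    exact (measurableSet_le (lo_meas (hg.loop e0) B.2) measurable_const).inter
      (measurableSet_le measurable_const (hi_meas (hg.loop e0) B.2))
  have hDi : ∀ e0 p q J x, Function.update J e0 x ∈ D e0 p q ↔ J ∈ D e0 p q := by
    intro e0 p q J x
    simp only [hD, Set.mem_iInter, Set.mem_inter_iff, Set.mem_ofPred_eq, lo_inv, hi_inv]
  have hD0 : ∀ e0 (p q : ℚ), p < q → Measure.infinitePi μ (D e0 p q) = 0 := by
    intro e0 p q hpq
    have hpq' : (p : ℝ) < q := by exact_mod_cast hpq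
    have h1 := indep_upd μ e0 (hDm e0 p q) (measurableSet_Ioo (a := (p : ℝ)) (b := q))
      (hDi e0 p q)
    have h2 : Measure.infinitePi μ (D e0 p q ∩ {J | J e0 ∈ Ioo (p : ℝ) q}) = 0 := by
      have h3 : ∀ᵐ J ∂(Measure.infinitePi μ), ¬ J ∈ D e0 p q ∩ {J | J e0 ∈ Ioo (p : ℝ) q} := by
        filter_upwards [h, gen_ae' μ hat] with J hJ hJg hJD
        have hl := hg.loop e0
        have hlo : ∀ B : Finset V, a e0 ∈ B → lo hg.fib J B e0 < J e0 := by
          intro B hB
          have := (Set.mem_iInter.1 hJD.1 ⟨B, hB⟩).1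
          exact lt_of_le_of_lt this hJD.2.1
        have hhi : ∀ B : Finset V, a e0 ∈ B → J e0 < hi hg.fib J B e0 := by
          intro B hB
          have := (Set.mem_iInter.1 hJD.1 ⟨B, hB⟩).2
          exact lt_of_lt_of_le hJD.2.2 this
        have hpos : ∀ Λ : Finset V, ∃ σ, Gs hg.fib J Λ σ ∧ σ (a e0) * σ (b e0) = 1 := by
          intro Λ
          have hB : a e0 ∈ insert (a e0) Λ := Finset.mem_insert_self _ _
          obtain ⟨η, hη, he⟩ := lo_att (hf := hg.fib) (J := J) hl hB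
          obtain ⟨σ, -, hσ, hp⟩ := exists_pos (hf := hg.fib) (J := J) hl hB hη
            (by rw [← he]; exact hlo _ hB)
          exact ⟨σ, hσ.mono (Finset.subset_insert _ _), hp⟩
        have hneg : ∀ Λ : Finset V, ∃ σ, Gs hg.fib J Λ σ ∧ σ (a e0) * σ (b e0) = -1 := by
          intro Λ
          have hB : a e0 ∈ insert (a e0) Λ := Finset.mem_insert_self _ _
          obtain ⟨η, hη, he⟩ := hi_att (hf := hg.fib) (J := J) hl hB
          obtain ⟨σ, -, hσ, hp⟩ := exists_neg (hf := hg.fib) (J := J) hl hB hη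
            (by rw [← he]; exact hhi _ hB)
          exact ⟨σ, hσ.mono (Finset.subset_insert _ _), hp⟩
        choose c hc hc1 using hpos
        choose c' hc' hc1' using hneg
        obtain ⟨σ, hσ, hσe⟩ := limit_gs hg hJg c hc
        obtain ⟨τ, hτ, hτe⟩ := limit_gs hg hJg c' hc'
        have h4 := hσe e0 1 (Filter.Eventually.of_forall hc1)
        have h5 := hτe e0 (-1) (Filter.Eventually.of_forall hc1')
        have h6 := hJ.par hσ hτ e0
        rw [h4, h5] at h6
        norm_num at h6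
      rw [ae_iff] at h3
      simpa only [not_not, Set.ofPred_mem_eq] using h3
    rw [h2] at h1
    rcases mul_eq_zero.1 h1.symm with h3 | h3
    · exact h3
    · exact absurd h3 (hfull e0 p q hpq')
  have hae : ∀ᵐ J ∂(Measure.infinitePi μ), ∀ e0 (p q : ℚ), p < q → J ∉ D e0 p q := by
    simp only [ae_all_iff]
    intro e0 p q hpq
    rw [ae_iff]
    simp only [not_not]
    exact hD0 e0 p q hpq
  filter_upwards [hae] with J hJ e0 ε hε
  by_contra hcon
  push Not at hcon
  have hl := hg.loop e0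
  have hB0 : a e0 ∈ ({a e0} : Finset V) := Finset.mem_singleton_self _
  have : Nonempty {B : Finset V // a e0 ∈ B} := ⟨⟨_, hB0⟩⟩
  have hcross : ∀ B B' : {B : Finset V // a e0 ∈ B},
      lo hg.fib J B e0 + ε ≤ hi hg.fib J B' e0 := by
    intro B B'
    have hU : a e0 ∈ (B : Finset V) ∪ B' := Finset.mem_union_left _ B.2
    have h1 := lo_mono (hf := hg.fib) (J := J) hl B.2 (Finset.subset_union_left (s₂ := (B' : Finset V)))
    have h2 := hi_mono (hf := hg.fib) (J := J) hl B'.2 (Finset.subset_union_right (s₁ := (B : Finset V)))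
    have h3 := hcon _ hU
    have h3' : ε < hi hg.fib J ((B : Finset V) ∪ B') e0 - lo hg.fib J ((B : Finset V) ∪ B') e0 := by
      convert h3
    linarith
  set L : ℝ := ⨆ B : {B : Finset V // a e0 ∈ B}, lo hg.fib J B e0 with hL
  have hbdd : BddAbove (Set.range fun B : {B : Finset V // a e0 ∈ B} => lo hg.fib J B e0) := by
    refine ⟨hi hg.fib J {a e0} e0, ?_⟩
    rintro _ ⟨B, rfl⟩
    have := hcross B ⟨_, hB0⟩
    simp only at this ⊢
    linarith
  have hL1 : ∀ B : {B : Finset V // a e0 ∈ B}, lo hg.fib J B e0 ≤ L := fun B => le_ciSup hbdd B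
  have hL2 : ∀ B : {B : Finset V // a e0 ∈ B}, L + ε ≤ hi hg.fib J B e0 := by
    intro B'
    have : L ≤ hi hg.fib J B' e0 - ε := ciSup_le fun B => by linarith [hcross B B']
    linarith
  obtain ⟨p, hp1, hp2⟩ := exists_rat_btwn (show L < L + ε / 2 by linarith)
  obtain ⟨q, hq1, hq2⟩ := exists_rat_btwn (show L + ε / 2 < L + ε by linarith)
  have hpq : p < q := by
    have : (p : ℝ) < q := by linarith
    exact_mod_cast this
  refine hJ e0 p q hpq ?_
  simp only [hD, Set.mem_iInter, Set.mem_inter_iff, Set.mem_ofPred_eq]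
  intro B
  exact ⟨by linarith [hL1 B], by linarith [hL2 B]⟩

/-- **Uniqueness for graphs with cheap boundaries.** -/
theorem uni_of_cheap (hg : Gr a b) (hat : ∀ e x, μ e {x} = 0)
    (h : ∀ᵐ J ∂(Measure.infinitePi μ), ∀ (A : Finset V) (ε : ℝ), 0 < ε → ∃ B : Finset V,
      A ⊆ B ∧ ∑ e ∈ bd hg.fib B, |J e| < ε) :
    ∀ᵐ J ∂(Measure.infinitePi μ), Uni a b J := by
  classical
  refine uni_of_van μ hg hat ?_
  filter_upwards [h] with J hJ e0 ε hε
  obtain ⟨B, hAB, hB⟩ := hJ {a e0, b e0} (ε / 2) (by linarith)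
  have h1 : a e0 ∈ B := hAB (by simp)
  have h2 : b e0 ∈ B := hAB (by simp)
  refine ⟨B, h1, ?_⟩
  have h3 := hi_sub_lo (hf := hg.fib) (J := J) (hg.loop e0) h1 h2
  have h4 : hi hg.fib J B e0 - lo hg.fib J B e0 ≤ ε := by linarith
  convert h4

end Pool.Agent.K3h91.CV
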