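import Pool.Agent.K3h91.CV.Main

/-!
# Uniqueness for arbitrary atomless laws: the intervals of the critical values are null
-/

set_option autoImplicit false

open Set Filter MeasureTheory

namespace Pool.Agent.K3h91.CV

variable {V E : Type} {a b : E → V}

open Classical in
/-- the interval of the critical values of every bond `e` has small `μ e`-measure in large sets -/
def Thin (μ : E → Measure ℝ) (hf : ∀ x, {e | a e = x ∨ b e = x}.Finite) (J : E → ℝ) : Prop :=
  ∀ e0 : E, ∀ ε : ℝ, 0 < ε → ∃ B : Finset V, a e0 ∈ B ∧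
    (μ e0).real (Icc (lo hf J B e0) (hi hf J B e0)) ≤ ε

/-- a countable set is exhausted by an increasing sequence of finite sets which contain a point -/
lemma exh [Countable V] (x : V) : ∃ B : ℕ → Finset V, Monotone B ∧ (∀ n, x ∈ B n) ∧
    ∀ A : Finset V, ∃ n, A ⊆ B n := by
  classical
  obtain ⟨f, hf⟩ := Countable.exists_injective_nat V
  have hfin : ∀ n, {v : V | f v ≤ n}.Finite := fun n =>
    Set.Finite.of_finite_image ((Set.finite_Iic n).subset (by rintro _ ⟨v, hv, rfl⟩; exact hv))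
      hf.injOn
  refine ⟨fun n => insert x (hfin n).toFinset, ?_, fun n => Finset.mem_insert_self _ _, ?_⟩
  · intro m n hmn
    refine Finset.insert_subset_insert _ fun v hv => ?_
    rw [Set.Finite.mem_toFinset, Set.mem_ofPred_eq] at hv ⊢
    exact hv.trans hmn
  · intro A
    refine ⟨A.sup f, fun v hv => Finset.mem_insert_of_mem ?_⟩
    rw [Set.Finite.mem_toFinset, Set.mem_ofPred_eq]
    exact Finset.le_sup (f := f) hv

variable [Countable V] [Countable E] [Infinite V]
variable (μ : E → Measure ℝ) [∀ e, IsProbabilityMeasure (μ e)]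

lemma icc_meas [DecidableEq E] {hf : ∀ x, {e | a e = x ∨ b e = x}.Finite} {B : Finset V} {e0 : E}
    (hl : a e0 ≠ b e0) (h0 : a e0 ∈ B) :
    Measurable fun J : E → ℝ => μ e0 (Icc (lo hf J B e0) (hi hf J B e0)) := by
  have h1 : MeasurableSet {p : (E → ℝ) × ℝ | lo hf p.1 B e0 ≤ p.2 ∧ p.2 ≤ hi hf p.1 B e0} :=
    (measurableSet_le ((lo_meas hl h0).comp measurable_fst) measurable_snd).inter
      (measurableSet_le measurable_snd ((hi_meas hl h0).comp measurable_fst))
  exact measurable_measure_prodMk_left h1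

/-- **Uniqueness if the intervals of the critical values shrink to null sets.** -/
theorem uni_of_thin (hg : Gr a b) (hat : ∀ e x, μ e {x} = 0)
    (h : ∀ᵐ J ∂(Measure.infinitePi μ), Thin μ hg.fib J) :
    ∀ᵐ J ∂(Measure.infinitePi μ), Uni a b J := by
  classical
  set N : E → Set (E → ℝ) := fun e0 =>
    (⋂ B : {B : Finset V // a e0 ∈ B}, {J | lo hg.fib J B e0 ≤ J e0} ∩
      {J | J e0 ≤ hi hg.fib J B e0}) ∩
    ⋂ n : ℕ, ⋃ B : {B : Finset V // a e0 ∈ B},
      {J | μ e0 (Icc (lo hg.fib J B e0) (hi hg.fib J B e0)) ≤ ENNReal.ofReal (1 / ((n : ℝ) + 1))}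
    with hN
  have hNm : ∀ e0, MeasurableSet (N e0) := by
    intro e0
    refine (MeasurableSet.iInter fun B => ?_).inter
      (MeasurableSet.iInter fun n => MeasurableSet.iUnion fun B => ?_)
    · exact (measurableSet_le (lo_meas (hg.loop e0) B.2) (measurable_pi_apply e0)).inter
        (measurableSet_le (measurable_pi_apply e0) (hi_meas (hg.loop e0) B.2))
    · exact measurableSet_le (icc_meas μ (hg.loop e0) B.2) measurable_const
  have hN0 : ∀ e0, Measure.infinitePi μ (N e0) = 0 := by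
    intro e0
    refine null_of_lines μ e0 (hNm e0) fun J => ?_
    by_cases hne : {x | Function.update J e0 x ∈ N e0}.Nonempty
    swap
    · rw [Set.not_nonempty_iff_eq_empty.1 hne, measure_empty]
    obtain ⟨y, hy⟩ := hne
    have key : ∀ n : ℕ, μ e0 {x | Function.update J e0 x ∈ N e0} ≤
        ENNReal.ofReal (1 / ((n : ℝ) + 1)) := by
      intro n
      simp only [hN, Set.mem_ofPred_eq, Set.mem_inter_iff, Set.mem_iInter, Set.mem_iUnion,
        lo_inv, hi_inv, Function.update_self] at hy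
      obtain ⟨B, hB⟩ := hy.2 n
      refine (measure_mono fun x hx => ?_).trans hB
      simp only [hN, Set.mem_ofPred_eq, Set.mem_inter_iff, Set.mem_iInter, Set.mem_iUnion,
        lo_inv, hi_inv, Function.update_self] at hx
      exact hx.1 B
    have hlim : Tendsto (fun n : ℕ => ENNReal.ofReal (1 / ((n : ℝ) + 1))) atTop (nhds 0) := by
      have := ENNReal.tendsto_ofReal (tendsto_one_div_add_atTop_nhds_zero_nat (𝕜 := ℝ))
      rwa [ENNReal.ofReal_zero] at this
    exact le_antisymm (ge_of_tendsto' hlim key) bot_le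
  have hae : ∀ᵐ J ∂(Measure.infinitePi μ), ∀ e0, J ∉ N e0 := by
    rw [ae_all_iff]
    intro e0
    rw [ae_iff]
    simp only [not_not]
    exact hN0 e0
  filter_upwards [h, hae, gen_ae' μ hat] with J hJ hJN hJg
  refine uni_of hg hJg fun σ τ hσ hτ e0 h1 h2 => hJN e0 ?_
  simp only [hN, Set.mem_inter_iff, Set.mem_iInter, Set.mem_iUnion, Set.mem_ofPred_eq]
  constructor
  · rintro ⟨B, hB⟩
    have hl := hg.loop e0
    exact ⟨(lo_le hl hB hσ.1).trans ((hσ.gs hg.fib B).pos hl hB h1),
      ((hτ.gs hg.fib B).neg' hl hB h2).trans (le_hi hl hB hτ.1)⟩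
  · intro n
    obtain ⟨B, hB, hB2⟩ := hJ e0 (1 / ((n : ℝ) + 1)) (by positivity)
    refine ⟨⟨B, hB⟩, ?_⟩
    have h3 : (μ e0).real (Icc (lo hg.fib J B e0) (hi hg.fib J B e0)) ≤ 1 / ((n : ℝ) + 1) := by
      convert hB2
    rw [← ENNReal.ofReal_toReal (measure_ne_top (μ e0) _)]
    exact ENNReal.ofReal_le_ofReal h3

/-- if an interval `(p, q)` of positive measure always lies between the critical values with
positive probability then there are several pairs of ground states -/
lemma D_null [DecidableEq E] (hg : Gr a b) (hat : ∀ e x, μ e {x} = 0)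
    (h : ∀ᵐ J ∂(Measure.infinitePi μ), Uni a b J) (e0 : E) (p q : ℝ) (hpq : μ e0 (Ioo p q) ≠ 0) :
    ∀ᵐ J ∂(Measure.infinitePi μ), ∃ B : Finset V, a e0 ∈ B ∧
      ¬ (lo hg.fib J B e0 ≤ p ∧ q ≤ hi hg.fib J B e0) := by
  set D : Set (E → ℝ) :=
    ⋂ B : {B : Finset V // a e0 ∈ B}, {J | lo hg.fib J B e0 ≤ p} ∩ {J | q ≤ hi hg.fib J B e0}
    with hD
  have hDm : MeasurableSet D := by
    refine MeasurableSet.iInter fun B => ?_
    exact (measurableSet_le (lo_meas (hg.loop e0) B.2) measurable_const).inter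
      (measurableSet_le measurable_const (hi_meas (hg.loop e0) B.2))
  have hDi : ∀ J x, Function.update J e0 x ∈ D ↔ J ∈ D := by
    intro J x
    simp only [hD, Set.mem_iInter, Set.mem_inter_iff, Set.mem_ofPred_eq, lo_inv, hi_inv]
  have h1 := indep_upd μ e0 hDm (measurableSet_Ioo (a := p) (b := q)) hDi
  have h2 : Measure.infinitePi μ (D ∩ {J | J e0 ∈ Ioo p q}) = 0 := by
    have h3 : ∀ᵐ J ∂(Measure.infinitePi μ), ¬ J ∈ D ∩ {J | J e0 ∈ Ioo p q} := by
      filter_upwards [h, gen_ae' μ hat] with J hJ hJg hJD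
      have hl := hg.loop e0
      have hlo : ∀ B : Finset V, a e0 ∈ B → lo hg.fib J B e0 < J e0 := by
        intro B hB
        have := (Set.mem_iInter.1 hJD.1 ⟨B, hB⟩).1
        exact lt_of_le_of_lt this hJD.2.1
      have hhi : ∀ B : Finset V, a e0 ∈ B → J e0 < hi hg.fib J B e0 := by
        intro B hB
        have := (Set.mem_iInter.1 hJD.1 ⟨B, hB⟩).2
        exact lt_of_lt_of_le hJD.2.2 this
      have hpos : ∀ Λ : Finset V, ∃ σ, Gs hg.fib J Λ σ ∧ σ (a e0) * σ (b e0) = 1 := by
        classical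
        intro Λ
        have hB : a e0 ∈ insert (a e0) Λ := Finset.mem_insert_self _ _
        obtain ⟨η, hη, he⟩ := lo_att (hf := hg.fib) (J := J) hl hB
        obtain ⟨σ, -, hσ, hp⟩ := exists_pos (hf := hg.fib) (J := J) hl hB hη
          (by rw [← he]; exact hlo _ hB)
        exact ⟨σ, hσ.mono (Finset.subset_insert _ _), hp⟩
      have hneg : ∀ Λ : Finset V, ∃ σ, Gs hg.fib J Λ σ ∧ σ (a e0) * σ (b e0) = -1 := by
        classical
        intro Λ
        have hB : a e0 ∈ insert (a e0) Λ := Finset.mem_insert_self _ _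
        obtain ⟨η, hη, he⟩ := hi_att (hf := hg.fib) (J := J) hl hB
        obtain ⟨σ, -, hσ, hp⟩ := exists_neg (hf := hg.fib) (J := J) hl hB hη
          (by rw [← he]; exact hhi _ hB)
        exact ⟨σ, hσ.mono (Finset.subset_insert _ _), hp⟩
      choose c hc hc1 using hpos
      choose c' hc' hc1' using hneg
      obtain ⟨σ, hσ, hσe⟩ := limit_gs hg hJg c hc
      obtain ⟨τ, hτ, hτe⟩ := limit_gs hg hJg c' hc'
      have h4 := hσe e0 1 (Filter.Eventually.of_forall hc1)
      have h5 := hτe e0 (-1) (Filter.Eventually.of_forall hc1')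
      have h6 := hJ.par hσ hτ e0
      rw [h4, h5] at h6
      norm_num at h6
    rw [ae_iff] at h3
    simpa only [not_not, Set.ofPred_mem_eq] using h3
  rw [h2] at h1
  have h0 : Measure.infinitePi μ D = 0 := by
    rcases mul_eq_zero.1 h1.symm with h3 | h3
    · exact h3
    · exact absurd h3 hpq
  have h3 : ∀ᵐ J ∂(Measure.infinitePi μ), J ∉ D := by
    rw [ae_iff]
    simp only [not_not]
    exact h0
  filter_upwards [h3] with J hJ
  by_contra hcon
  push Not at hcon
  exact hJ (Set.mem_iInter.2 fun B => hcon B B.2)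

/-- **The intervals of the critical values shrink to null sets if the ground states are unique.** -/
theorem thin_of_uni (hg : Gr a b) (hat : ∀ e x, μ e {x} = 0)
    (h : ∀ᵐ J ∂(Measure.infinitePi μ), Uni a b J) :
    ∀ᵐ J ∂(Measure.infinitePi μ), Thin μ hg.fib J := by
  classical
  have hae : ∀ᵐ J ∂(Measure.infinitePi μ), ∀ e0 (p q : ℚ), μ e0 (Ioo (p : ℝ) q) ≠ 0 →
      ∃ B : Finset V, a e0 ∈ B ∧ ¬ (lo hg.fib J B e0 ≤ p ∧ (q : ℝ) ≤ hi hg.fib J B e0) := by
    simp only [ae_all_iff]
    intro e0 p q hpq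
    exact D_null μ hg hat h e0 p q hpq
  filter_upwards [hae] with J hJ e0 ε hε
  have hl := hg.loop e0
  obtain ⟨B, hBm, hB0, hBc⟩ := exh (a e0)
  set I : ℕ → Set ℝ := fun n => Icc (lo hg.fib J (B n) e0) (hi hg.fib J (B n) e0) with hI
  have hlom : Monotone fun n => lo hg.fib J (B n) e0 := fun m n hmn =>
    lo_mono hl (hB0 m) (hBm hmn)
  have hhim : Antitone fun n => hi hg.fib J (B n) e0 := fun m n hmn =>
    hi_mono hl (hB0 m) (hBm hmn)
  have hIa : Antitone I := fun m n hmn => Icc_subset_Icc (hlom hmn) (hhim hmn)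
  have hcross : ∀ m n, lo hg.fib J (B m) e0 ≤ hi hg.fib J (B n) e0 := fun m n =>
    (hlom (le_max_left m n)).trans ((lo_le_hi hl (hB0 _)).trans (hhim (le_max_right m n)))
  have hI0 : μ e0 (⋂ n, I n) = 0 := by
    set L : ℝ := ⨆ n, lo hg.fib J (B n) e0 with hL
    set H : ℝ := ⨅ n, hi hg.fib J (B n) e0 with hH
    have hba : BddAbove (Set.range fun n => lo hg.fib J (B n) e0) :=
      ⟨hi hg.fib J (B 0) e0, by rintro _ ⟨n, rfl⟩; exact hcross n 0⟩
    have hbb : BddBelow (Set.range fun n => hi hg.fib J (B n) e0) :=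
      ⟨lo hg.fib J (B 0) e0, by rintro _ ⟨n, rfl⟩; exact hcross 0 n⟩
    have hsub : (⋂ n, I n) ⊆ ({L} ∪ {H}) ∪ ⋃ p : ℚ, ⋃ q : ℚ,
        if L < p ∧ (q : ℝ) < H then Ioo (p : ℝ) q else ∅ := by
      intro x hx
      have hx1 : L ≤ x := ciSup_le fun n => (Set.mem_iInter.1 hx n).1
      have hx2 : x ≤ H := le_ciInf fun n => (Set.mem_iInter.1 hx n).2
      rcases hx1.lt_or_eq with h1 | h1
      · rcases hx2.lt_or_eq with h2 | h2
        · right
          obtain ⟨p, hp1, hp2⟩ := exists_rat_btwn h1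
          obtain ⟨q, hq1, hq2⟩ := exists_rat_btwn h2
          simp only [Set.mem_iUnion]
          refine ⟨p, q, ?_⟩
          rw [if_pos ⟨hp1, hq2⟩]
          exact ⟨hp2, hq1⟩
        · left; right; exact h2
      · left; left; exact h1.symm
    refine measure_mono_null hsub (measure_union_null (measure_union_null (hat _ _) (hat _ _)) ?_)
    refine measure_iUnion_null fun p => measure_iUnion_null fun q => ?_
    split_ifs with hpq
    · by_contra hne
      obtain ⟨B', hB'0, hB'⟩ := hJ e0 p q hne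
      obtain ⟨n, hn⟩ := hBc B'
      have h1 : lo hg.fib J B' e0 ≤ p := by
        have h2 := lo_mono (hf := hg.fib) (J := J) hl hB'0 hn
        have h3 : lo hg.fib J (B n) e0 ≤ L := le_ciSup hba n
        linarith [hpq.1]
      have h2 : (q : ℝ) ≤ hi hg.fib J B' e0 := by
        have h2 := hi_mono (hf := hg.fib) (J := J) hl hB'0 hn
        have h3 : H ≤ hi hg.fib J (B n) e0 := ciInf_le hbb n
        linarith [hpq.2]
      exact hB' ⟨h1, h2⟩
    · exact measure_empty
  have hlim : Tendsto (fun n => μ e0 (I n)) atTop (nhds (μ e0 (⋂ n, I n))) :=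
    tendsto_measure_iInter_atTop (fun n => measurableSet_Icc.nullMeasurableSet) hIa
      ⟨0, measure_ne_top _ _⟩
  rw [hI0] at hlim
  have hev := hlim.eventually_lt_const (show (0 : ENNReal) < ENNReal.ofReal ε from
    ENNReal.ofReal_pos.2 hε)
  obtain ⟨n, hn⟩ := hev.exists
  refine ⟨B n, hB0 n, ?_⟩
  have h3 : (μ e0).real (Icc (lo hg.fib J (B n) e0) (hi hg.fib J (B n) e0)) ≤ ε := by
    refine ENNReal.toReal_le_of_le_ofReal hε.le hn.le
  convert h3

end Pool.Agent.K3h91.CV
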