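import Mathlib

/-!
# Infinite products of probability measures on the line: one coordinate at a time
-/

set_option autoImplicit false

open MeasureTheory ProbabilityTheory Set

namespace Pool.Agent.K3h91.CV

variable {E : Type} [DecidableEq E] (μ : E → Measure ℝ) [∀ e, IsProbabilityMeasure (μ e)]

lemma meas_upd (e0 : E) : Measurable fun p : (E → ℝ) × ℝ => Function.update p.1 e0 p.2 := by
  rw [measurable_pi_iff]
  intro e
  by_cases h : e = e0
  · subst h
    simp only [Function.update_self]
    exact measurable_snd
  · simp only [Function.update_of_ne h]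
    exact (measurable_pi_apply e).comp measurable_fst

/-- Resampling one coordinate does not change the product measure. -/
theorem map_upd (e0 : E) : ((Measure.infinitePi μ).prod (μ e0)).map
    (fun p : (E → ℝ) × ℝ => Function.update p.1 e0 p.2) = Measure.infinitePi μ := by
  classical
  apply Measure.eq_infinitePi
  intro s t ht
  rw [Measure.map_apply (meas_upd e0)
    (MeasurableSet.pi (Finset.countable_toSet s) fun e _ => ht e)]
  by_cases h0 : e0 ∈ s
  · have hpre : (fun p : (E → ℝ) × ℝ => Function.update p.1 e0 p.2) ⁻¹'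
        (Set.pi (s : Set E) t) = (Set.pi ((s.erase e0 : Finset E) : Set E) t) ×ˢ t e0 := by
      ext ⟨J, x⟩
      simp only [Set.mem_preimage, Set.mem_pi, Finset.mem_coe, Set.mem_prod, Finset.mem_erase]
      constructor
      · intro h
        refine ⟨fun e he => ?_, ?_⟩
        · have := h e he.2
          rwa [Function.update_of_ne he.1] at this
        · have := h e0 h0
          rwa [Function.update_self] at this
      · rintro ⟨h1, h2⟩ e he
        by_cases hee : e = e0
        · subst hee
          rwa [Function.update_self]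
        · rw [Function.update_of_ne hee]
          exact h1 e ⟨hee, he⟩
    rw [hpre, Measure.prod_prod, Measure.infinitePi_pi _ (fun e _ => ht e), mul_comm,
      Finset.mul_prod_erase s (fun e => μ e (t e)) h0]
  · have hpre : (fun p : (E → ℝ) × ℝ => Function.update p.1 e0 p.2) ⁻¹'
        (Set.pi (s : Set E) t) = (Set.pi (s : Set E) t) ×ˢ univ := by
      ext ⟨J, x⟩
      simp only [Set.mem_preimage, Set.mem_pi, Finset.mem_coe, Set.mem_prod, Set.mem_univ,
        and_true]
      constructor
      · intro h e he
        have := h e he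
        rwa [Function.update_of_ne (fun h1 => h0 (by rw [← h1]; exact he))] at this
      · intro h e he
        rw [Function.update_of_ne (fun h1 => h0 (by rw [← h1]; exact he))]
        exact h e he
    rw [hpre, Measure.prod_prod, Measure.infinitePi_pi _ (fun e _ => ht e), measure_univ, mul_one]

theorem meas_eq (e0 : E) {A : Set (E → ℝ)} (hA : MeasurableSet A) :
    Measure.infinitePi μ A = ∫⁻ J, μ e0 {x | Function.update J e0 x ∈ A} ∂(Measure.infinitePi μ) := by
  conv_lhs => rw [← map_upd μ e0]
  rw [Measure.map_apply (meas_upd e0) hA, Measure.prod_apply (meas_upd e0 hA)]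
  rfl

/-- A measurable set each line of which in one direction meets it in a null set is null. -/
theorem null_of_lines (e0 : E) {A : Set (E → ℝ)} (hA : MeasurableSet A)
    (h : ∀ J, μ e0 {x | Function.update J e0 x ∈ A} = 0) : Measure.infinitePi μ A = 0 := by
  rw [meas_eq μ e0 hA]
  simp [h]

/-- events which do not depend on a coordinate are independent of it -/
theorem indep_upd (e0 : E) {A : Set (E → ℝ)} (hA : MeasurableSet A) {t : Set ℝ}
    (ht : MeasurableSet t) (hinv : ∀ J x, Function.update J e0 x ∈ A ↔ J ∈ A) :
    Measure.infinitePi μ (A ∩ {J | J e0 ∈ t}) = Measure.infinitePi μ A * μ e0 t := by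
  have hm : MeasurableSet (A ∩ {J : E → ℝ | J e0 ∈ t}) := hA.inter (measurable_pi_apply e0 ht)
  rw [meas_eq μ e0 hm]
  have h1 : ∀ J, μ e0 {x | Function.update J e0 x ∈ A ∩ {J : E → ℝ | J e0 ∈ t}} =
      A.indicator (fun _ => μ e0 t) J := by
    intro J
    by_cases hJ : J ∈ A
    · rw [Set.indicator_of_mem hJ]
      congr 1
      ext x
      simp only [Set.mem_ofPred_eq, Set.mem_inter_iff, hinv, hJ, true_and, Function.update_self]
    · rw [Set.indicator_of_notMem hJ]
      have : {x | Function.update J e0 x ∈ A ∩ {J : E → ℝ | J e0 ∈ t}} = ∅ := by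
        ext x
        simp only [Set.mem_ofPred_eq, Set.mem_inter_iff, hinv, hJ, false_and,
          Set.mem_empty_iff_false]
      rw [this, measure_empty]
  simp only [h1]
  rw [lintegral_indicator hA, setLIntegral_const, mul_comm]

/-- finite sums of atomless couplings do not coincide -/
theorem gen_ae' [Countable E] (hat : ∀ e x, μ e {x} = 0) :
    ∀ᵐ J ∂(Measure.infinitePi μ), ∀ T1 T2 : Finset E, Disjoint T1 T2 →
      (∃ e, e ∈ T1 ∨ e ∈ T2) → ∑ e ∈ T1, J e ≠ ∑ e ∈ T2, J e := by
  classical
  rw [ae_all_iff]; intro T1
  rw [ae_all_iff]; intro T2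
  by_cases hd : Disjoint T1 T2
  swap
  · exact Filter.Eventually.of_forall fun J hex => absurd hex hd
  by_cases he : ∃ e, e ∈ T1 ∨ e ∈ T2
  swap
  · exact Filter.Eventually.of_forall fun J _ hex => absurd hex he
  obtain ⟨e0, he0⟩ := he
  rw [ae_iff]
  have hm : ∀ T : Finset E, Measurable fun J : E → ℝ => ∑ e ∈ T, J e := fun T =>
    Finset.measurable_sum T fun e _ => measurable_pi_apply e
  have hA : MeasurableSet {J : E → ℝ | ∑ e ∈ T1, J e = ∑ e ∈ T2, J e} :=
    measurableSet_eq_fun (hm T1) (hm T2)
  refine measure_mono_null (t := {J : E → ℝ | ∑ e ∈ T1, J e = ∑ e ∈ T2, J e}) ?_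
    (null_of_lines μ e0 hA ?_)
  · intro J hJ
    simp only [Set.mem_ofPred_eq, Classical.not_imp, ne_eq, not_not] at hJ ⊢
    exact hJ.2.2
  · intro J
    have hs : ∀ (T : Finset E) (x : ℝ), ∑ e ∈ T, Function.update J e0 x e =
        (if e0 ∈ T then x else 0) + ∑ e ∈ T.erase e0, J e := by
      intro T x
      by_cases h : e0 ∈ T
      · rw [← Finset.add_sum_erase T _ h, Function.update_self, if_pos h]
        congr 1
        refine Finset.sum_congr rfl fun e he => ?_
        rw [Function.update_of_ne (Finset.ne_of_mem_erase he)]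
      · rw [if_neg h, zero_add, Finset.erase_eq_of_notMem h]
        refine Finset.sum_congr rfl fun e he => ?_
        rw [Function.update_of_ne (fun h1 => h (by rw [← h1]; exact he))]
    have hsub : {x | Function.update J e0 x ∈ {J : E → ℝ | ∑ e ∈ T1, J e = ∑ e ∈ T2, J e}} ⊆
        {(∑ e ∈ T2.erase e0, J e - ∑ e ∈ T1.erase e0, J e) * (if e0 ∈ T1 then 1 else -1)} := by
      intro x hx
      simp only [Set.mem_ofPred_eq, hs] at hx
      rw [Set.mem_singleton_iff]
      rcases he0 with h | h
      · have h' : e0 ∉ T2 := Finset.disjoint_left.1 hd h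
        rw [if_pos h, if_neg h'] at hx
        rw [if_pos h]
        linarith
      · have h' : e0 ∉ T1 := fun h1 => Finset.disjoint_left.1 hd h1 h
        rw [if_pos h, if_neg h'] at hx
        rw [if_neg h']
        linarith
    exact measure_mono_null hsub (hat _ _)

end Pool.Agent.K3h91.CV
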